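import Pool.Agent.R462.PL.Main2

/-!
# MP_ae5b4e_an: foliations by anisotropic parallel curves

`γ` is a smooth closed convex curve of positive curvature with support function `H`, and the leaves
are the curves with the support functions `H + r h`, `r ≥ 0` small, where `h` is any smooth positive
`2π`-periodic function: the `r`-parallel curves of `γ` for the (possibly nonsymmetric, possibly
nonconvex) gauge `h`, which are the boundaries of the Minkowski sums `K + r B` if `h` is the
support function of a convex body `B`. For `h = 1` these are the ordinary parallel curves.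
`pt u θ` is the boundary point with outer normal `(cos θ, sin θ)` for the support function `u`.

`ProjectiveInvolutions H h` says that for every point `p = pt H θ₀` of `γ` the involution of the
tangent line which exchanges the two intersection points of the leaves is projective near `p`:
a projective involution of the line (coordinate `s`) which fixes `s = 0` and exchanges the two
sides satisfies `1 / s + 1 / σ s = c`.

If all these involutions are projective and one of the two objects, the curve `γ` or the gauge, is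
an ellipse (for the gauge: with centre `0`), then so is the other one, they are homothetic, and the
leaves are homothetic concentric ellipses of one pencil of conics. In particular, for the ordinary
parallel curves `γ` must be a circle.
-/

set_option autoImplicit false

open Real

namespace Pool.Agent.Results.MP_ae5b4e_an.AnisotropicParallels

open Pool.Agent.R462.PL

theorem conic {H h : ℝ → ℝ} (hh : Differentiable ℝ h) {A B C a b l : ℝ}
    (h2 : ∀ θ, h θ ^ 2 = A * cos θ ^ 2 + 2 * B * cos θ * sin θ + C * sin θ ^ 2)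
    (h3 : ∀ θ, h θ * deriv h θ = (C - A) * cos θ * sin θ + B * (cos θ ^ 2 - sin θ ^ 2))
    (hpos : ∀ θ, 0 < h θ) (hH : ∀ θ, H θ = l * h θ + a * cos θ + b * sin θ) (r θ : ℝ) :
    C * ((pt (fun t => H t + r * h t) θ).1 - a) ^ 2
      - 2 * B * ((pt (fun t => H t + r * h t) θ).1 - a) * ((pt (fun t => H t + r * h t) θ).2 - b)
      + A * ((pt (fun t => H t + r * h t) θ).2 - b) ^ 2 = (A * C - B ^ 2) * (l + r) ^ 2 := by
  have hd : deriv (fun t => H t + r * h t) θ
      = (l + r) * deriv h θ - a * sin θ + b * cos θ := by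
    have e : (fun t => H t + r * h t) = fun t => (l + r) * h t + a * cos t + b * sin t := by
      funext t
      rw [hH]
      ring
    rw [e]
    refine HasDerivAt.deriv ?_
    refine HasDerivAt.congr_deriv ((((hh θ).hasDerivAt.const_mul (l + r)).fun_add
      ((Real.hasDerivAt_cos θ).const_mul a)).fun_add ((Real.hasDerivAt_sin θ).const_mul b)) ?_
    ring
  have hsc := Real.sin_sq_add_cos_sq θ
  have p1 : (pt (fun t => H t + r * h t) θ).1 - a = (l + r) * (h θ * cos θ - deriv h θ * sin θ) := by
    simp only [pt]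
    rw [hd, hH]
    linear_combination a * hsc
  have p2 : (pt (fun t => H t + r * h t) θ).2 - b = (l + r) * (h θ * sin θ + deriv h θ * cos θ) := by
    simp only [pt]
    rw [hd, hH]
    linear_combination b * hsc
  rw [p1, p2]
  have x1 : h θ * (h θ * cos θ - deriv h θ * sin θ) = A * cos θ + B * sin θ := by
    linear_combination cos θ * h2 θ - sin θ * h3 θ + (A * cos θ + B * sin θ) * hsc
  have x2 : h θ * (h θ * sin θ + deriv h θ * cos θ) = B * cos θ + C * sin θ := by
    linear_combination sin θ * h2 θ + cos θ * h3 θ + (B * cos θ + C * sin θ) * hsc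
  have key : C * (h θ * cos θ - deriv h θ * sin θ) ^ 2
      - 2 * B * (h θ * cos θ - deriv h θ * sin θ) * (h θ * sin θ + deriv h θ * cos θ)
      + A * (h θ * sin θ + deriv h θ * cos θ) ^ 2 = A * C - B ^ 2 := by
    have h4 : h θ ^ 2 ≠ 0 := pow_ne_zero 2 (hpos θ).ne'
    apply mul_left_cancel₀ h4
    have : h θ ^ 2 * (C * (h θ * cos θ - deriv h θ * sin θ) ^ 2
      - 2 * B * (h θ * cos θ - deriv h θ * sin θ) * (h θ * sin θ + deriv h θ * cos θ)
      + A * (h θ * sin θ + deriv h θ * cos θ) ^ 2)
      = C * (h θ * (h θ * cos θ - deriv h θ * sin θ)) ^ 2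
        - 2 * B * (h θ * (h θ * cos θ - deriv h θ * sin θ))
          * (h θ * (h θ * sin θ + deriv h θ * cos θ))
        + A * (h θ * (h θ * sin θ + deriv h θ * cos θ)) ^ 2 := by ring
    rw [this, x1, x2, h2]
    ring
  linear_combination (l + r) ^ 2 * key

theorem result (H h : ℝ → ℝ) (hH : ContDiff ℝ (⊤ : ℕ∞) H) (hh : ContDiff ℝ (⊤ : ℕ∞) h)
    (perH : Function.Periodic H (2 * π)) (perh : Function.Periodic h (2 * π))
    (curv : ∀ θ, 0 < H θ + deriv (deriv H) θ) (hpos : ∀ θ, 0 < h θ)
    (inv : ProjectiveInvolutions H h)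
    (ell : IsEllipse h ∨ ∃ a b : ℝ, IsEllipse fun θ => H θ - a * cos θ - b * sin θ) :
    ∃ A B C a b l : ℝ, 0 < A ∧ B ^ 2 < A * C ∧ 0 < l ∧
      (∀ θ, h θ ^ 2 = A * cos θ ^ 2 + 2 * B * cos θ * sin θ + C * sin θ ^ 2) ∧
      (∀ θ, H θ = l * h θ + a * cos θ + b * sin θ) ∧
      ∀ r θ : ℝ, C * ((pt (fun t => H t + r * h t) θ).1 - a) ^ 2
        - 2 * B * ((pt (fun t => H t + r * h t) θ).1 - a) * ((pt (fun t => H t + r * h t) θ).2 - b)
        + A * ((pt (fun t => H t + r * h t) θ).2 - b) ^ 2 = (A * C - B ^ 2) * (l + r) ^ 2 := by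
  have dh := hasDerivAt_jt hh 0
  have dH := hasDerivAt_jt hH 0
  have j0 : ∀ (u : ℝ → ℝ) (θ : ℝ), jt u 0 0 θ = u θ := fun u θ => by simp [jt]
  have j1 : ∀ (u : ℝ → ℝ) (θ : ℝ), jt u 0 1 θ = deriv u θ := fun u θ => by simp [jt]
  -- it suffices to find `l`
  have fin : ∀ A B C a b l : ℝ, B ^ 2 < A * C → 0 < l →
      (∀ θ, h θ ^ 2 = A * cos θ ^ 2 + 2 * B * cos θ * sin θ + C * sin θ ^ 2) →
      (∀ θ, H θ = l * h θ + a * cos θ + b * sin θ) →
      ∃ A B C a b l : ℝ, 0 < A ∧ B ^ 2 < A * C ∧ 0 < l ∧
      (∀ θ, h θ ^ 2 = A * cos θ ^ 2 + 2 * B * cos θ * sin θ + C * sin θ ^ 2) ∧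
      (∀ θ, H θ = l * h θ + a * cos θ + b * sin θ) ∧
      ∀ r θ : ℝ, C * ((pt (fun t => H t + r * h t) θ).1 - a) ^ 2
        - 2 * B * ((pt (fun t => H t + r * h t) θ).1 - a) * ((pt (fun t => H t + r * h t) θ).2 - b)
        + A * ((pt (fun t => H t + r * h t) θ).2 - b) ^ 2 = (A * C - B ^ 2) * (l + r) ^ 2 := by
    intro A B C a b l h1 h2 h3 h4
    refine ⟨A, B, C, a, b, l, ?_, h1, h2, h3, h4, fun r θ =>
      conic (hh.differentiable (by simp)) h3 (fun θ => ?_) hpos h4 r θ⟩
    · have := h3 0
      simp only [Real.cos_zero, Real.sin_zero] at this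
      have h5 := pow_pos (hpos 0) 2
      nlinarith
    · have := (ellipse_curv dh (A := A) (B := B) (C := C) (fun θ => by rw [j0]; exact h3 θ) θ).2
      rwa [j0, j1] at this
  rcases ell with ⟨-, A, B, C, hABC, hQ⟩ | ⟨a, b, hG, A, B, C, hABC, hQ⟩
  · have hc := fun θ => (ellipse_curv dh (A := A) (B := B) (C := C)
      (fun θ => by rw [j0]; exact hQ θ) θ).1
    have hΔ : 0 < A * C - B ^ 2 := by linarith
    obtain ⟨R₀, hR⟩ := gauge_case hH hh curv hpos inv perH perh hΔ hc
    have hR0 : 0 < R₀ := by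
      rw [← hR 0, j0]
      exact mul_pos (bb_pos curv 0) (pow_pos (hpos 0) 3)
    set l := R₀ / (A * C - B ^ 2) with hl
    have hl0 : 0 < l := div_pos hR0 hΔ
    have hlΔ : l * (A * C - B ^ 2) = R₀ := by rw [hl]; exact div_mul_cancel₀ _ hΔ.ne'
    obtain ⟨a, b, hab⟩ := circle_seq (u := fun i θ => jt H 0 i θ - l * jt h 0 i θ)
      (fun i θ => (dH i θ).fun_sub ((dh i θ).const_mul l)) (fun θ => by
        have e1 := hR θ
        have e2 := hc θ
        have e3 : jt h 0 0 θ ^ 3 * (bb (jt H 0) 0 θ - l * bb (jt h 0) 0 θ) = 0 := by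
          linear_combination e1 - l * e2 - hlΔ
        have e4 : bb (jt H 0) 0 θ - l * bb (jt h 0) 0 θ = 0 := by
          rcases mul_eq_zero.1 e3 with h5 | h5
          · rw [j0] at h5
            exact absurd h5 (pow_ne_zero 3 (hpos θ).ne')
          · exact h5
        simp only [bb] at e4 ⊢
        linear_combination e4)
    refine fin A B C a b l hABC hl0 hQ fun θ => ?_
    have := hab θ
    simp only [j0] at this
    linear_combination this
  · have hΔ : 0 < A * C - B ^ 2 := by linarith
    have dG : ∀ i t, HasDerivAt ((fun i θ => jt H 0 i θ - TT a b i θ) i)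
        ((fun i θ => jt H 0 i θ - TT a b i θ) (i + 1) t) t := fun i t =>
      (dH i t).fun_sub (hasDerivAt_TT a b i t)
    have G0 : ∀ θ, jt H 0 0 θ - TT a b 0 θ = H θ - a * cos θ - b * sin θ := fun θ => by
      simp [jt, TT]
      ring
    have hc : ∀ θ, (H θ - a * cos θ - b * sin θ) ^ 3 * bb (jt H 0) 0 θ = A * C - B ^ 2 := by
      intro θ
      have h1 := (ellipse_curv dG (A := A) (B := B) (C := C) (fun θ => by
        simp only [G0]
        exact hQ θ) θ).1
      have h2 := bb_TT a b 0 θ
      simp only [bb, G0] at h1 h2 ⊢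
      linear_combination h1 + (H θ - a * cos θ - b * sin θ) ^ 3 * h2
        + (H θ - a * cos θ - b * sin θ) ^ 3 * G0 θ
    obtain ⟨μ, hμ⟩ := body_case hH hh curv hpos inv perH perh hΔ hG hc
    have hμ0 : 0 < μ := by
      have h1 := hpos 0
      rw [hμ 0] at h1
      exact (pos_iff_pos_of_mul_pos h1).2 (hG 0)
    refine fin (μ ^ 2 * A) (μ ^ 2 * B) (μ ^ 2 * C) a b μ⁻¹ ?_ (inv_pos.2 hμ0) (fun θ => ?_)
      fun θ => ?_
    · have : 0 < μ ^ 4 * (A * C - B ^ 2) := by positivity
      nlinarith
    · rw [hμ, mul_pow, hQ]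
      ring
    · rw [hμ, ← mul_assoc, inv_mul_cancel₀ hμ0.ne', one_mul]
      ring

end Pool.Agent.Results.MP_ae5b4e_an.AnisotropicParallels
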