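import Pool.Agent.R462.EQ.Rigid

/-!
# MP_ae5b4e_an: foliations by equidistant curves in the geometries of constant curvature

The surface of constant curvature `c` is projectively a part of `ℝP²`: its geodesics are straight
lines (gnomonic projection of the sphere for `c > 0`, affine plane for `c = 0`, Klein model of the
hyperbolic plane for `c < 0`). Points of `ℝP²` are given by homogeneous coordinates, vectors of
`ℝ³`. A curve parametrized by arc length is given by its frame `γ, T, N` (point, tangent, outer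
normal), which satisfies the Frenet equations `γ' = T`, `T' = -c γ - k N`, `N' = k T` with the
geodesic curvature `k`. The point at distance `r` from `γ s` on the outer normal is, projectively,
`γ s + τ N s` with `τ = tan_c r` (`tan (√c r) / √c`, `r`, `tanh (√-c r) / √-c`), so the leaves
`{γ s + τ N s}`, `τ ≥ 0` small, are the outer equidistant curves of `γ`. The point of the tangent
line at `s₀` with the projective coordinate `x` is `γ s₀ + x T s₀`.

`ProjectiveInvolutions γ T N` says that for every `s₀` the involution of the tangent line, which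
exchanges the two points of each leaf near `γ s₀`, is projective: in the projective coordinate `x`
with `x = 0` at the fixed point `γ s₀` this means `1 / x - 1 / y = κ` for the points with the
coordinates `x` and `-y`.

If `k > 0` and `11 k² > 9 c` (no condition in the Euclidean and in the hyperbolic plane), `k` is
periodic (as for closed curves) and all involutions are projective, then `k` is constant, and `γ`
and its equidistant curves lie on nondegenerate conics of one pencil.
-/

set_option autoImplicit false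

open Filter Topology

namespace Pool.Agent.Results.MP_ae5b4e_an.EquidistantLeaves

open Pool.Agent.R462.EQ

/-- The Frenet equations of a curve with geodesic curvature `k` in the surface of constant
curvature `c`, in homogeneous coordinates; `N` is the outer normal. -/
def Frame (c : ℝ) (k : ℝ → ℝ) (γ T N : ℝ → Fin 3 → ℝ) : Prop :=
  (∀ s, HasDerivAt γ (T s) s) ∧ (∀ s, HasDerivAt T (-(c • γ s) - k s • N s) s) ∧
    (∀ s, HasDerivAt N (k s • T s) s) ∧ (Matrix.of ![γ 0, T 0, N 0]).det ≠ 0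

/-- All involutions of the tangent lines are projective. -/
def ProjectiveInvolutions (γ T N : ℝ → Fin 3 → ℝ) : Prop :=
  ∀ s₀ : ℝ, ∃ κ ε : ℝ, 0 < ε ∧ ∀ τ x y s₁ s₂ l₁ l₂ : ℝ, 0 < τ → τ < ε → 0 < x → x < ε →
    0 < y → y < ε → |s₁ - s₀| < ε → |s₂ - s₀| < ε → 0 < l₁ → 0 < l₂ →
    γ s₁ + τ • N s₁ = l₁ • (γ s₀ + x • T s₀) → γ s₂ + τ • N s₂ = l₂ • (γ s₀ - y • T s₀) →
    1 / x - 1 / y = κ

theorem det_eq (u v w : Fin 3 → ℝ) : (Matrix.of ![u, v, w]).det = det3 u v w := by
  rw [Matrix.det_fin_three]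
  simp only [Matrix.of_apply, Matrix.cons_val_zero, Matrix.cons_val_one, Matrix.cons_val, det3]
  ring

/-- The frame, shifted. -/
theorem ode {c : ℝ} {k k1 k2 k3 : ℝ → ℝ} {γ T N : ℝ → Fin 3 → ℝ} (hF : Frame c k γ T N)
    (dk : ∀ t, HasDerivAt k (k1 t) t) (dk1 : ∀ t, HasDerivAt k1 (k2 t) t)
    (dk2 : ∀ t, HasDerivAt k2 (k3 t) t) (kpos : ∀ s, 0 < k s)
    (inv : ProjectiveInvolutions γ T N) (s : ℝ) :
    9 * k s ^ 2 * k3 s - 30 * k s * k1 s * k2 s + 20 * k1 s ^ 3 + 81 * c * k s ^ 2 * k1 s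
      - 99 * k s ^ 4 * k1 s = 0 := by
  obtain ⟨hG, hT, hN, hdet⟩ := hF
  rw [det_eq] at hdet
  have hdet' : det3 (γ (s + 0)) (T (s + 0)) (N (s + 0)) ≠ 0 := by
    rw [det_const hG hT hN]
    exact hdet
  obtain ⟨κ, ε, hε, h⟩ := inv s
  have key := local_ode (c := c) (k := fun t => k (s + t)) (G := fun t => γ (s + t))
    (T := fun t => T (s + t)) (N := fun t => N (s + t)) (k1 := fun t => k1 (s + t))
    (k2 := fun t => k2 (s + t)) (k3 := fun t => k3 (s + t))
    (fun t => (hG (s + t)).comp_const_add s t) (fun t => (hT (s + t)).comp_const_add s t)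
    (fun t => (hN (s + t)).comp_const_add s t) hdet'
    (fun t => (dk (s + t)).comp_const_add s t) (fun t => (dk1 (s + t)).comp_const_add s t)
    (fun t => (dk2 (s + t)).comp_const_add s t) (kpos _)
    ⟨κ, ε, hε, fun τ x y s₁ s₂ l₁ l₂ a1 a2 a3 a4 a5 a6 a7 a8 a9 a10 a11 a12 =>
      h τ x y (s + s₁) (s + s₂) l₁ l₂ a1 a2 a3 a4 a5 a6 (by simpa using a7) (by simpa using a8)
        a9 a10 (by simpa using a11) (by simpa using a12)⟩
  simpa using key

theorem result {c L : ℝ} (hL : 0 < L) {k : ℝ → ℝ} {γ T N : ℝ → Fin 3 → ℝ}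
    (hF : Frame c k γ T N) (hk : ContDiff ℝ 3 k) (per : Function.Periodic k L)
    (kpos : ∀ s, 0 < k s) (curv : ∀ s, 9 * c < 11 * k s ^ 2)
    (inv : ProjectiveInvolutions γ T N) :
    ∃ k₀ : ℝ, 0 < k₀ ∧ (∀ s, k s = k₀) ∧ ∃ P Q : QuadraticForm ℝ (Fin 3 → ℝ),
      (∀ v, (∀ w, QuadraticMap.polar P v w = 0) → v = 0) ∧
      ∀ s τ : ℝ, P (γ s + τ • N s) = (c - k₀ ^ 2) * τ ^ 2 - 2 * k₀ * τ ∧
        Q (γ s + τ • N s) = 1 + c * τ ^ 2 := by
  have dk : ∀ t, HasDerivAt k (deriv k t) t := fun t =>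
    (hk.differentiable (by norm_num) t).hasDerivAt
  have c1 : ContDiff ℝ 2 (deriv k) := by
    have : ContDiff ℝ (2 + 1) k := by norm_num; exact hk
    exact (contDiff_succ_iff_deriv.1 this).2.2
  have dk1 : ∀ t, HasDerivAt (deriv k) (deriv (deriv k) t) t := fun t =>
    (c1.differentiable (by norm_num) t).hasDerivAt
  have c2 : ContDiff ℝ 1 (deriv (deriv k)) := by
    have : ContDiff ℝ (1 + 1) (deriv k) := by norm_num; exact c1
    exact (contDiff_succ_iff_deriv.1 this).2.2
  have dk2 : ∀ t, HasDerivAt (deriv (deriv k)) (deriv (deriv (deriv k)) t) t := fun t =>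
    (c2.differentiable (by norm_num) t).hasDerivAt
  have hconst := k_const hL dk dk1 dk2 per kpos curv (ode hF dk dk1 dk2 kpos inv)
  obtain ⟨hG, hT, hN, hdet⟩ := hF
  rw [det_eq] at hdet
  obtain ⟨k₀, hk₀⟩ : ∃ k₀, k₀ = k 0 := ⟨_, rfl⟩
  have k₀pos : 0 < k₀ := by rw [hk₀]; exact kpos 0
  have hkc : ∀ s, k s = k₀ := fun s => by rw [hconst s, hk₀]
  -- the coordinates as linear forms
  let la : (Fin 3 → ℝ) →ₗ[ℝ] ℝ :=
    { toFun := fun V => ca γ T N V 0
      map_add' := fun V W => by simp only [ca, det3, Pi.add_apply]; ring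
      map_smul' := fun r V => by
        simp only [ca, det3, Pi.smul_apply, smul_eq_mul, RingHom.id_apply]; ring }
  let lb : (Fin 3 → ℝ) →ₗ[ℝ] ℝ :=
    { toFun := fun V => cb γ T N V 0
      map_add' := fun V W => by simp only [cb, det3, Pi.add_apply]; ring
      map_smul' := fun r V => by
        simp only [cb, det3, Pi.smul_apply, smul_eq_mul, RingHom.id_apply]; ring }
  let le : (Fin 3 → ℝ) →ₗ[ℝ] ℝ :=
    { toFun := fun V => ce γ T N V 0
      map_add' := fun V W => by simp only [ce, det3, Pi.add_apply]; ring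
      map_smul' := fun r V => by
        simp only [ce, det3, Pi.smul_apply, smul_eq_mul, RingHom.id_apply]; ring }
  let P : QuadraticForm ℝ (Fin 3 → ℝ) := (c - k₀ ^ 2) • QuadraticMap.linMulLin le le
    - (2 * k₀) • QuadraticMap.linMulLin la le - k₀ ^ 2 • QuadraticMap.linMulLin lb lb
  let Q : QuadraticForm ℝ (Fin 3 → ℝ) := QuadraticMap.linMulLin la la
    + c • QuadraticMap.linMulLin lb lb + c • QuadraticMap.linMulLin le le
  have hP : ∀ v, P v = (c - k₀ ^ 2) * (ce γ T N v 0 * ce γ T N v 0)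
      - 2 * k₀ * (ca γ T N v 0 * ce γ T N v 0) - k₀ ^ 2 * (cb γ T N v 0 * cb γ T N v 0) :=
    fun v => rfl
  have hQ : ∀ v, Q v = ca γ T N v 0 * ca γ T N v 0 + c * (cb γ T N v 0 * cb γ T N v 0)
      + c * (ce γ T N v 0 * ce γ T N v 0) := fun v => rfl
  refine ⟨k₀, k₀pos, hkc, P, Q, ?_, ?_⟩
  · intro v hv
    have ha : ∀ V W, ca γ T N (V + W) 0 = ca γ T N V 0 + ca γ T N W 0 := la.map_add
    have hb : ∀ V W, cb γ T N (V + W) 0 = cb γ T N V 0 + cb γ T N W 0 := lb.map_add
    have he : ∀ V W, ce γ T N (V + W) 0 = ce γ T N V 0 + ce γ T N W 0 := le.map_add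
    obtain ⟨g1, g2, g3⟩ := coord hG hT hN hdet 0 1 0 0
    obtain ⟨g4, g5, g6⟩ := coord hG hT hN hdet 0 0 1 0
    obtain ⟨g7, g8, g9⟩ := coord hG hT hN hdet 0 0 0 1
    simp only [one_smul, zero_smul, add_zero, zero_add] at g1 g2 g3 g4 g5 g6 g7 g8 g9
    have p1 := hv (γ 0)
    have p2 := hv (T 0)
    have p3 := hv (N 0)
    simp only [QuadraticMap.polar, hP, ha, hb, he, g1, g2, g3] at p1
    simp only [QuadraticMap.polar, hP, ha, hb, he, g4, g5, g6] at p2
    simp only [QuadraticMap.polar, hP, ha, hb, he, g7, g8, g9] at p3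
    have q1 : ce γ T N v 0 = 0 := by
      have : k₀ * ce γ T N v 0 = 0 := by linear_combination (-1 / 2) * p1
      exact (mul_eq_zero.1 this).resolve_left k₀pos.ne'
    have q2 : cb γ T N v 0 = 0 := by
      have : k₀ ^ 2 * cb γ T N v 0 = 0 := by linear_combination (-1 / 2) * p2
      exact (mul_eq_zero.1 this).resolve_left (pow_ne_zero 2 k₀pos.ne')
    have q3 : ca γ T N v 0 = 0 := by
      rw [q1] at p3
      have : k₀ * ca γ T N v 0 = 0 := by linear_combination (-1 / 2) * p3
      exact (mul_eq_zero.1 this).resolve_left k₀pos.ne'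
    rw [cramer hG hT hN hdet v 0, q1, q2, q3]
    simp
  · intro s τ
    obtain ⟨V, hV⟩ : ∃ V, V = γ s + τ • N s := ⟨_, rfl⟩
    obtain ⟨g1, g2, g3⟩ := coord hG hT hN hdet s 1 0 τ
    simp only [one_smul, zero_smul, add_zero] at g1 g2 g3
    rw [← hV] at g1 g2 g3 ⊢
    have hq := q_const hG hT hN V s
    have hp : (c - k₀ ^ 2) * (ce γ T N V s) ^ 2 - 2 * k₀ * (ca γ T N V s * ce γ T N V s)
        - k₀ ^ 2 * cb γ T N V s ^ 2 = (c - k₀ ^ 2) * (ce γ T N V 0) ^ 2
        - 2 * k₀ * (ca γ T N V 0 * ce γ T N V 0) - k₀ ^ 2 * cb γ T N V 0 ^ 2 := by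
      have h : ∀ s, HasDerivAt (fun s => (c - k₀ ^ 2) * (ce γ T N V s) ^ 2
          - 2 * k₀ * (ca γ T N V s * ce γ T N V s) - k₀ ^ 2 * cb γ T N V s ^ 2) 0 s := fun s => by
        refine HasDerivAt.congr_deriv (((((hasDerivAt_ce hG hT V s).fun_pow 2).const_mul
          (c - k₀ ^ 2)).fun_sub (((hasDerivAt_ca hT hN V s).fun_mul
          (hasDerivAt_ce hG hT V s)).const_mul (2 * k₀))).fun_sub
          (((hasDerivAt_cb hG hN V s).fun_pow 2).const_mul (k₀ ^ 2))) ?_
        rw [hkc]
        push_cast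
        ring
      exact is_const_of_deriv_eq_zero (fun s => (h s).differentiableAt)
        (fun s => (h s).deriv) s 0
    rw [g1, g2, g3] at hq hp
    constructor
    · rw [hP]
      linear_combination -hp
    · rw [hQ]
      linear_combination -hq

end Pool.Agent.Results.MP_ae5b4e_an.EquidistantLeaves
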