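import Pool.Agent.R279.PC.Final

/-!
# Projective involutions on the tangent lines of an ellipse force a pencil of conics
-/

namespace Pool.Agent.Results.MP_ae5b4e_an.PencilRigidity

open Real Set Pool.Agent.R279.PC
open scoped ContDiff

/-- The concentric circles up to the circle of the circumscribed equilateral triangles are an
example of the foliations in `result`. -/
theorem concentric : ProjFoliation (fun c θ => θ + c * (2 * π / 3)) where
  smooth := by fun_prop
  zero θ := by simp
  per c _ θ := by ring
  deriv_angle c _ θ := by simp
  deriv_param c _ θ := by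
    have h : HasDerivAt (fun c : ℝ => θ + c * (2 * π / 3)) (2 * π / 3) c := by
      simpa using ((hasDerivAt_id c).mul_const (2 * π / 3)).const_add θ
    rw [h.deriv]
    positivity
  outer := Or.inl fun θ => by ring
  proj θ := by
    refine ⟨!![1, 0; 0, -1], by simp [Matrix.det_fin_two], fun c _ w hw => ?_⟩
    have h1 : c * (2 * π / 3) / 2 = c * (π / 3) := by ring
    have h2 : (w - θ) / 2 = -(c * (π / 3)) := by
      rw [← hw]
      ring
    refine ⟨⟨1, ?_⟩, ⟨1, ?_⟩⟩ <;>
    · ext i
      fin_cases i <;> simp [tco, h1, h2, Matrix.mulVec, dotProduct, Fin.sum_univ_two]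

/-- Let `γ` be the unit circle (every ellipse is projectively equivalent to it) and let a smooth
foliation of the closed region between `γ` and an outer leaf, on the exterior side of `γ` in the
projective plane, be such that on every tangent line `ℓ_θ` the involution exchanging the two
points of each leaf is projective. Suppose that the outer leaf consists of the vertices of
triangles circumscribed about `γ`, or of the vertices of parallelograms circumscribed about `γ`
(see `ProjFoliation`). Then all leaves belong to one pencil of conics: there is a quadratic form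
`S`, positive on `γ`, such that every leaf `c` is exactly the set of real points of a nondegenerate
conic `S - lam c • formγ` of the pencil spanned by `S` and the form of `γ`. -/
theorem result (Φ : ℝ → ℝ → ℝ) (F : ProjFoliation Φ) :
    ∃ (S : Matrix (Fin 3) (Fin 3) ℝ) (lam : ℝ → ℝ), S.IsSymm ∧ (∀ θ, 0 < conic S (circ θ)) ∧
      ∀ c ∈ Ioc (0 : ℝ) 1, (S - lam c • formγ).det ≠ 0 ∧ ∀ X : Fin 3 → ℝ, X ≠ 0 →
        (conic (S - lam c • formγ) X = 0 ↔ ∃ θ k : ℝ, k ≠ 0 ∧ X = k • tpt θ (Φ c θ)) :=
  rigidity F

end Pool.Agent.Results.MP_ae5b4e_an.PencilRigidity
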