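import Pool.Agent.R825.SI.G

/-!
# MP_ae5b4e_an: foliations by the level curves of `f(x) + g(y) + e x y`

`f` and `g` are real analytic on `ℝ`, `F(x, y) = f(x) + g(y) + e x y`, and `γ` is a closed leaf:
a nonempty compact set which is the part in an open set `U` of the level `{F = c}`, on which the
gradient of `F` and the curvature do not vanish.  The leaves near `γ` are the level curves of `F`,
and the involution `σ_p` of the tangent line at `p` is projective if and only if it is
`s ↦ -s / (1 + m s)` for some real `m` (`s` the affine coordinate of the tangent line with origin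
`p`), that is, if `F` has the same value at the points with coordinates `s` and `-s / (1 + m s)`
for all `s` close to `0`.

Conclusion: if all `σ_p` are projective then `F` is a quadratic polynomial with definite quadratic
part, `γ` is an ellipse, and the level curves of `F` are the homothetic ellipses with the same
centre.  The second part: if a first integral `F` is real analytic on the line `p + ℝ v` and
unbounded at both ends of it, then a projective `σ_p` is the point reflection in `p`.

Proof (`Pool/Agent/R825/SI`): the first variation, along `γ`, of the functional equation at a point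
with horizontal tangent determines `f' (x₀ + s) + e y₀ = A s / (1 + l s²)`, `l ≥ 0`; the same for
`g`; such an integral is unbounded on all lines if `e = 0`, whence all `σ_p` are point reflections
and `l = 0`; if `e ≠ 0` one compares the highest and the lowest point.
-/

set_option autoImplicit false

namespace Pool.Agent.Results.MP_ae5b4e_an.SeparableIntegrals

open Filter Topology Set

/-- the first integral `f(x) + g(y) + e x y` -/
noncomputable def F (f g : ℝ → ℝ) (e : ℝ) (p : ℝ × ℝ) : ℝ := f p.1 + g p.2 + e * p.1 * p.2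

/-- the tangent vector `(F_y, -F_x)` of the level curve of `F` at `p` -/
noncomputable def tangent (f g : ℝ → ℝ) (e : ℝ) (p : ℝ × ℝ) : ℝ × ℝ :=
  (deriv g p.2 + e * p.1, -(deriv f p.1 + e * p.2))

/-- `γ` is a closed leaf of the foliation by the level curves of `F`, regular and of nonvanishing
curvature: `F` restricted to the tangent line at `p` has a nondegenerate critical point at `p` -/
structure ClosedLeaf (f g : ℝ → ℝ) (e c : ℝ) (γ U : Set (ℝ × ℝ)) : Prop where
  analytic₁ : ∀ x, AnalyticAt ℝ f x
  analytic₂ : ∀ y, AnalyticAt ℝ g y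
  isOpen : IsOpen U
  eq : γ = {p | p ∈ U ∧ F f g e p = c}
  compact : IsCompact γ
  nonempty : γ.Nonempty
  regular : ∀ p ∈ γ, tangent f g e p ≠ 0
  curved : ∀ p ∈ γ, deriv (deriv fun s : ℝ => F f g e (p + s • tangent f g e p)) 0 ≠ 0

/-- `σ_p` is projective for the foliation by the level curves of `F` -/
def ProjectiveAt (f g : ℝ → ℝ) (e : ℝ) (p : ℝ × ℝ) : Prop :=
  ∃ m : ℝ, ∀ᶠ s in 𝓝 (0 : ℝ), F f g e (p + (-s / (1 + m * s)) • tangent f g e p) =
    F f g e (p + s • tangent f g e p)

theorem ln_eq (f g : ℝ → ℝ) (e : ℝ) (p : ℝ × ℝ) (s : ℝ) :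
    Pool.Agent.R825.SI.ln f g e p.1 p.2 (Pool.Agent.R825.SI.Fy g e p)
      (-Pool.Agent.R825.SI.Fx f e p) s = F f g e (p + s • tangent f g e p) := rfl

/-- **Theorem.** (1) Let `γ` be a closed leaf of the foliation by the level curves of
`F = f(x) + g(y) + e x y`, where `f` and `g` are real analytic on `ℝ`, and let all involutions
`σ_p`, `p ∈ γ`, be projective.  Then `F` is, up to a constant, a definite quadratic form in
`(x - x₀, y - y₀)`, and `γ` is an ellipse, a level curve of this quadratic form.
(2) Let `H` be real analytic at all points of the line `p + ℝ v` and let `|H|` tend to infinity at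
both ends of this line.  If `H` has the same value at `p + s v` and `p - (s / (1 + m s)) v` for all
small `s`, then `m = 0`. -/
theorem result :
    (∀ (f g : ℝ → ℝ) (e c : ℝ) (γ U : Set (ℝ × ℝ)), ClosedLeaf f g e c γ U →
      (∀ p ∈ γ, ProjectiveAt f g e p) →
      ∃ a b x₀ y₀ δ : ℝ, 0 < 4 * a * b - e ^ 2 ∧ 0 < a * δ ∧
        (∀ x y, f x + g y + e * x * y =
          c - δ + (a * (x - x₀) ^ 2 + e * (x - x₀) * (y - y₀) + b * (y - y₀) ^ 2)) ∧
        γ = {p | a * (p.1 - x₀) ^ 2 + e * (p.1 - x₀) * (p.2 - y₀) + b * (p.2 - y₀) ^ 2 = δ}) ∧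
    (∀ (H : ℝ × ℝ → ℝ) (p v : ℝ × ℝ) (m : ℝ), (∀ s : ℝ, AnalyticAt ℝ H (p + s • v)) →
      Tendsto (fun s : ℝ => |H (p + s • v)|) (cocompact ℝ) atTop →
      (∀ᶠ s in 𝓝 (0 : ℝ), H (p + (-s / (1 + m * s)) • v) = H (p + s • v)) → m = 0) := by
  refine ⟨?_, ?_⟩
  · intro f g e c γ U h hproj
    have H : Pool.Agent.R825.SI.Cv f g e c γ U := by
      refine ⟨h.analytic₁, h.analytic₂, h.isOpen, h.eq, ?_, ?_, ?_⟩
      · intro p hp
        by_contra hcon
        push Not at hcon
        apply h.regular p hp
        have h1 : deriv f p.1 + e * p.2 = 0 := hcon.1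
        have h2 : deriv g p.2 + e * p.1 = 0 := hcon.2
        unfold tangent
        rw [h1, h2, neg_zero]
        rfl
      · intro p hp
        exact h.curved p hp
      · intro p hp
        exact hproj p hp
    exact Pool.Agent.R825.SI.main H h.compact h.nonempty
  · intro H p v m ha ht hm
    by_contra hm0
    set K : ℝ → ℝ := fun s => H (p + s • v) with hK
    have hKa : ∀ s, AnalyticAt ℝ K s := by
      intro s
      have h1 : AnalyticAt ℝ (fun s : ℝ => p + s • v) s := by fun_prop
      exact AnalyticAt.comp (f := fun s : ℝ => p + s • v) (x := s) (ha s) h1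
    have hgl := Pool.Agent.R825.SI.glob hKa (m := m) hm
    have hcont : Continuous K := by
      rw [continuous_iff_continuousAt]
      exact fun s => (hKa s).continuousAt
    obtain ⟨ε, hε, hεm⟩ : ∃ ε : ℝ, (ε = 1 ∨ ε = -1) ∧ m * ε = |m| := by
      rcases lt_or_gt_of_ne hm0 with h | h
      · exact ⟨-1, Or.inr rfl, by rw [abs_of_neg h]; ring⟩
      · exact ⟨1, Or.inl rfl, by rw [abs_of_pos h]; ring⟩
    have hεabs : |ε| = 1 := by
      rcases hε with h | h <;> rw [h] <;> norm_num
    have hmabs : 0 < |m| := abs_pos.mpr hm0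
    obtain ⟨C, hC⟩ := (isCompact_Icc (a := -(1 / |m|)) (b := 1 / |m|)).bddAbove_image
      (hcont.abs).continuousOn
    have hbd : ∀ u : ℝ, 0 ≤ u → |K (ε * u)| ≤ C := by
      intro u hu
      have e1 : 1 + m * (ε * u) = 1 + |m| * u := by
        rw [← hεm]
        ring
      have e2 : 0 < 1 + m * (ε * u) := by
        rw [e1]
        positivity
      rw [← hgl _ e2]
      apply hC
      refine ⟨_, ?_, rfl⟩
      rw [mem_Icc, ← abs_le]
      unfold Pool.Agent.R825.SI.sg
      rw [abs_div, abs_neg, abs_mul, hεabs, one_mul, abs_of_pos e2, e1, abs_of_nonneg hu,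
        div_le_div_iff₀ (by positivity) hmabs]
      nlinarith
    have hε0 : ε ≠ 0 := by
      rcases hε with h | h <;> rw [h] <;> norm_num
    have h1 : Tendsto (fun u : ℝ => ε * u) atTop (cocompact ℝ) := by
      have h2 : Tendsto (fun u : ℝ => ε * u) (cocompact ℝ) (cocompact ℝ) :=
        (Homeomorph.mulLeft₀ ε hε0).isClosedEmbedding.tendsto_cocompact
      exact h2.mono_left atTop_le_cocompact
    obtain ⟨u, hu1, hu2⟩ :=
      (((ht.comp h1).eventually_gt_atTop C).and (eventually_ge_atTop 0)).exists
    have h3 : C < |K (ε * u)| := hu1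
    have := hbd u hu2
    linarith

end Pool.Agent.Results.MP_ae5b4e_an.SeparableIntegrals
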